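import Pool.Agent.H95.CG.Targets

/-!
# Module LL of the board cg_modules (MP_347b49_nt): the lattice lemma
-/

set_option autoImplicit false

open Matrix

namespace Pool.Agent.H3.CG

open Pool.Agent.H95.CG Pool.Agent.H25.HK

/-- `(1 + 2u)^k ≤ 3^n (1 + u^(n/2))` if `2k ≤ n` -/
theorem ll_pow {n k : ℕ} (hk : 2 * k ≤ n) {u : ℝ} (hu : 0 ≤ u) :
    (1 + 2 * u) ^ k ≤ 3 ^ n * (1 + u ^ ((n : ℝ) / 2)) := by
  have h1 : (1 : ℝ) ≤ 1 + 2 * u := by linarith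
  have hkn : (k : ℝ) ≤ (n : ℝ) / 2 := by
    have : (2 * k : ℝ) ≤ n := by exact_mod_cast hk
    linarith
  have h0 : (0 : ℝ) ≤ (n : ℝ) / 2 := by positivity
  have h2 : (1 + 2 * u) ^ k ≤ (1 + 2 * u) ^ ((n : ℝ) / 2) := by
    rw [← Real.rpow_natCast]
    exact Real.rpow_le_rpow_of_exponent_le h1 hkn
  refine h2.trans ?_
  have h3 : (3 : ℝ) ^ ((n : ℝ) / 2) ≤ 3 ^ n := by
    rw [← Real.rpow_natCast]
    refine Real.rpow_le_rpow_of_exponent_le (by norm_num) ?_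
    have : (0 : ℝ) ≤ n := Nat.cast_nonneg n
    linarith
  have hup : 0 ≤ u ^ ((n : ℝ) / 2) := Real.rpow_nonneg hu _
  have h3p : (0 : ℝ) ≤ 3 ^ ((n : ℝ) / 2) := by positivity
  by_cases hu1 : u ≤ 1
  · have h4 : (1 + 2 * u) ^ ((n : ℝ) / 2) ≤ 3 ^ ((n : ℝ) / 2) :=
      Real.rpow_le_rpow (by linarith) (by linarith) h0
    nlinarith
  · have h4 : (1 + 2 * u) ^ ((n : ℝ) / 2) ≤ (3 * u) ^ ((n : ℝ) / 2) :=
      Real.rpow_le_rpow (by linarith) (by linarith) h0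
    rw [Real.mul_rpow (by norm_num) hu] at h4
    nlinarith

theorem ll_sqrt {s : ℝ} (hs : 0 < s) (n : ℕ) :
    (Real.sqrt s⁻¹) ^ ((n : ℝ) / 2) = s ^ (-(n : ℝ) / 4) := by
  rw [Real.sqrt_eq_rpow, ← Real.rpow_mul (inv_nonneg.2 hs.le), Real.inv_rpow hs.le,
    ← Real.rpow_neg hs.le]
  congr 1
  ring

theorem pf_ll (hTF : T_TF) (hCO : T_CO) (hPC : T_PC) (hOR : T_OR) : T_LL := by
  intro n hn
  obtain ⟨C₀, hC₀, hC⟩ := hCO n
  refine ⟨C₀ * 3 ^ n, by positivity, ?_⟩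
  intro ι _ _ S hι hS hdet a b t ha hb ht
  have ht0 : 0 < t := lt_of_lt_of_le one_pos ht
  have ha0 := ha.1
  have hb0 := hb.1
  obtain ⟨hSi, hdi, hii, hts⟩ := hTF ι S hS hdet
  have hor := hOR ι S hS t⁻¹ (inv_pos.2 ht0)
  rw [inv_inv, hι] at hor
  have hA : 0 ≤ (t * a) ^ (-(n : ℝ) / 4) := Real.rpow_nonneg (by positivity) _
  have hB : 0 ≤ (t * b) ^ (-(n : ℝ) / 4) := Real.rpow_nonneg (by positivity) _
  by_cases hk : 2 * Module.finrank ℝ (sp S t⁻¹) ≤ n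
  · have h1 := hC ι S hι hS t ht0
    have h2 := (hPC ι S hS).2 t⁻¹ a (inv_pos.2 ht0) ha
    have h3 : t⁻¹ / a = (t * a)⁻¹ := by rw [mul_inv, div_eq_mul_inv]
    rw [h3] at h2
    have h4 := ll_pow hk (Real.sqrt_nonneg (t * a)⁻¹)
    rw [ll_sqrt (by positivity)] at h4
    have h5 : ts S t ≤ C₀ * (3 ^ n * (1 + (t * a) ^ (-(n : ℝ) / 4))) :=
      h1.trans (mul_le_mul_of_nonneg_left (h2.trans h4) hC₀.le)
    refine h5.trans ?_
    rw [← mul_assoc]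
    refine mul_le_mul_of_nonneg_left ?_ (by positivity)
    linarith
  · have hk' : 2 * Module.finrank ℝ (sp S⁻¹ t) ≤ n := by omega
    have h1 := hC ι S⁻¹ hι hSi t⁻¹ (inv_pos.2 ht0)
    rw [inv_inv] at h1
    have h2 := (hPC ι S⁻¹ hSi).2 t b ht0 hb
    have h0 := (hts t ht0).2
    rw [hι] at h0
    have hT : 0 ≤ t ^ (-(n : ℝ) / 2) := Real.rpow_nonneg ht0.le _
    have h6 : (1 + 2 * Real.sqrt (t / b)) ^ Module.finrank ℝ (sp S⁻¹ t) ≤
        (1 + 2 * Real.sqrt (t / b)) ^ ((n : ℝ) / 2) := by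
      rw [← Real.rpow_natCast]
      refine Real.rpow_le_rpow_of_exponent_le ?_ ?_
      · have := Real.sqrt_nonneg (t / b)
        linarith
      · have : (2 * Module.finrank ℝ (sp S⁻¹ t) : ℝ) ≤ n := by exact_mod_cast hk'
        linarith
    have h7 : t ^ (-(n : ℝ) / 2) * (1 + 2 * Real.sqrt (t / b)) ^ ((n : ℝ) / 2) ≤
        3 ^ n * (1 + (t * b) ^ (-(n : ℝ) / 4)) := by
      have e1 : t ^ (-(n : ℝ) / 2) = (t⁻¹) ^ ((n : ℝ) / 2) := by
        rw [Real.inv_rpow ht0.le, ← Real.rpow_neg ht0.le]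
        congr 1
        ring
      rw [e1, ← Real.mul_rpow (inv_nonneg.2 ht0.le) (by positivity)]
      have e2 : t⁻¹ * Real.sqrt (t / b) = Real.sqrt (t * b)⁻¹ := by
        have e3 : (t * b)⁻¹ = (t⁻¹) ^ 2 * (t / b) := by
          field_simp
        rw [e3, Real.sqrt_mul (by positivity), Real.sqrt_sq (inv_nonneg.2 ht0.le)]
      have e4 : t⁻¹ * (1 + 2 * Real.sqrt (t / b)) ≤ 1 + 2 * Real.sqrt (t * b)⁻¹ := by
        rw [mul_add, mul_one, mul_left_comm, e2]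
        have : t⁻¹ ≤ 1 := inv_le_one_of_one_le₀ ht
        linarith
      refine (Real.rpow_le_rpow (by positivity) e4 (by positivity)).trans ?_
      have hu := Real.sqrt_nonneg (t * b)⁻¹
      rw [← ll_sqrt (by positivity : 0 < t * b)]
      generalize Real.sqrt (t * b)⁻¹ = u at hu ⊢
      have h3 : (3 : ℝ) ^ ((n : ℝ) / 2) ≤ 3 ^ n := by
        rw [← Real.rpow_natCast]
        refine Real.rpow_le_rpow_of_exponent_le (by norm_num) ?_
        have : (0 : ℝ) ≤ n := Nat.cast_nonneg n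
        linarith
      have hup : 0 ≤ u ^ ((n : ℝ) / 2) := Real.rpow_nonneg hu _
      have h3p : (0 : ℝ) ≤ 3 ^ ((n : ℝ) / 2) := by positivity
      by_cases hu1 : u ≤ 1
      · have h4 : (1 + 2 * u) ^ ((n : ℝ) / 2) ≤ 3 ^ ((n : ℝ) / 2) :=
          Real.rpow_le_rpow (by linarith) (by linarith) (by positivity)
        nlinarith
      · have h4 : (1 + 2 * u) ^ ((n : ℝ) / 2) ≤ (3 * u) ^ ((n : ℝ) / 2) :=
          Real.rpow_le_rpow (by linarith) (by linarith) (by positivity)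
        rw [Real.mul_rpow (by norm_num) hu] at h4
        nlinarith
    have h8 : ts S⁻¹ t⁻¹ ≤ C₀ * (1 + 2 * Real.sqrt (t / b)) ^ ((n : ℝ) / 2) :=
      h1.trans (mul_le_mul_of_nonneg_left (h2.trans h6) hC₀.le)
    rw [h0]
    calc t ^ (-(n : ℝ) / 2) * ts S⁻¹ t⁻¹
        ≤ t ^ (-(n : ℝ) / 2) * (C₀ * (1 + 2 * Real.sqrt (t / b)) ^ ((n : ℝ) / 2)) :=
          mul_le_mul_of_nonneg_left h8 hT
      _ = C₀ * (t ^ (-(n : ℝ) / 2) * (1 + 2 * Real.sqrt (t / b)) ^ ((n : ℝ) / 2)) := by ring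
      _ ≤ C₀ * (3 ^ n * (1 + (t * b) ^ (-(n : ℝ) / 4))) := mul_le_mul_of_nonneg_left h7 hC₀.le
      _ ≤ C₀ * 3 ^ n * (1 + (t * a) ^ (-(n : ℝ) / 4) + (t * b) ^ (-(n : ℝ) / 4)) := by
          rw [← mul_assoc]
          refine mul_le_mul_of_nonneg_left ?_ (by positivity)
          linarith

end Pool.Agent.H3.CG
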