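import Pool.Agent.H95.CG.Targets

/-!
# Module OR of the board cg_modules (MP_347b49_nt): short vectors of dual lattices are orthogonal
-/

set_option autoImplicit false

open Matrix

namespace Pool.Agent.H3.CG

open Pool.Agent.H95.CG Pool.Agent.H25.HK

section

variable {ι : Type} [Fintype ι] [DecidableEq ι]

omit [DecidableEq ι] in
theorem or_qf (S : Matrix ι ι ℝ) (x : ι → ℝ) : qf S x = x ⬝ᵥ S.mulVec x := by
  simp only [qf, dotProduct, mulVec, Finset.mul_sum]
  refine Finset.sum_congr rfl fun i _ => Finset.sum_congr rfl fun j _ => ?_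
  ring

omit [DecidableEq ι] in
theorem or_nonneg {S : Matrix ι ι ℝ} (hS : S.PosDef) (x : ι → ℝ) : 0 ≤ qf S x := by
  rw [or_qf]
  have h := hS.posSemidef.dotProduct_mulVec_nonneg x
  simpa using h

/-- the inequality of Cauchy and Schwarz -/
theorem or_cs {S : Matrix ι ι ℝ} (hS : S.PosDef) (x y : ι → ℝ) :
    (x ⬝ᵥ y) ^ 2 ≤ qf S x * qf S⁻¹ y := by
  have hu := hS.isUnit
  have hdet : IsUnit S.det := (Matrix.isUnit_iff_isUnit_det S).1 hu
  have h1 : S.mulVec (S⁻¹.mulVec y) = y := by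
    rw [mulVec_mulVec, mul_nonsing_inv _ hdet, one_mulVec]
  have hsym : S.transpose = S := by
    have h := hS.isHermitian
    rwa [Matrix.IsHermitian, conjTranspose_eq_transpose_of_trivial] at h
  have h2 : ∀ v w : ι → ℝ, v ⬝ᵥ S.mulVec w = w ⬝ᵥ S.mulVec v := by
    intro v w
    rw [dotProduct_mulVec, ← mulVec_transpose, hsym, dotProduct_comm]
  have key : ∀ c : ℝ, 0 ≤ qf S⁻¹ y * (c * c) + 2 * (x ⬝ᵥ y) * c + qf S x := by
    intro c
    have h3 := or_nonneg hS (x + c • S⁻¹.mulVec y)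
    rw [or_qf, mulVec_add, mulVec_smul, h1, add_dotProduct, dotProduct_add, dotProduct_add,
      smul_dotProduct, smul_dotProduct, dotProduct_smul, dotProduct_smul,
      h2 (S⁻¹.mulVec y) x, h1, ← or_qf, dotProduct_comm (S⁻¹.mulVec y) y, ← or_qf] at h3
    simp only [smul_eq_mul] at h3
    linarith
  have h4 := discrim_le_zero key
  unfold discrim at h4
  nlinarith

theorem or_int {S : Matrix ι ι ℝ} (hS : S.PosDef) {r : ℝ} (hr : 0 < r) (m m' : ι → ℤ)
    (h : qz S m < r) (h' : qz S⁻¹ m' < r⁻¹) :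
    (fun i => (m i : ℝ)) ⬝ᵥ (fun i => (m' i : ℝ)) = 0 := by
  have h1 := or_cs hS (fun i => (m i : ℝ)) (fun i => (m' i : ℝ))
  have h2 : (fun i => (m i : ℝ)) ⬝ᵥ (fun i => (m' i : ℝ)) = ((∑ i, m i * m' i : ℤ) : ℝ) := by
    simp [dotProduct]
  have h3 : qz S m * qz S⁻¹ m' < 1 := by
    have h4 : 0 ≤ qz S m := or_nonneg hS _
    have h5 : 0 ≤ qz S⁻¹ m' := or_nonneg hS.inv _
    calc qz S m * qz S⁻¹ m' ≤ r * qz S⁻¹ m' := mul_le_mul_of_nonneg_right h.le h5
      _ < r * r⁻¹ := mul_lt_mul_of_pos_left h' hr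
      _ = 1 := mul_inv_cancel₀ hr.ne'
  have h4 : (((∑ i, m i * m' i : ℤ) : ℝ)) ^ 2 < 1 := by
    rw [← h2]
    exact lt_of_le_of_lt h1 h3
  have h5 : (∑ i, m i * m' i : ℤ) ^ 2 < 1 := by exact_mod_cast h4
  have h6 : (∑ i, m i * m' i : ℤ) = 0 := by
    have h7 : (∑ i, m i * m' i : ℤ) ^ 2 = 0 := le_antisymm (by omega) (sq_nonneg _)
    exact pow_eq_zero_iff (two_ne_zero) |>.1 h7
  rw [h2, h6, Int.cast_zero]

end

theorem pf_or : T_OR := by
  intro ι _ _ S hS r hr
  set W := sp S r with hW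
  set W' := sp S⁻¹ r⁻¹ with hW'
  have key : ∀ x ∈ W, ∀ y ∈ W', x ⬝ᵥ y = 0 := by
    intro x hx
    induction hx using Submodule.span_induction with
    | mem x hx =>
      obtain ⟨m, hm, rfl⟩ := hx
      intro y hy
      induction hy using Submodule.span_induction with
      | mem y hy =>
        obtain ⟨m', hm', rfl⟩ := hy
        exact or_int hS hr m m' hm hm'
      | zero => simp
      | add y z _ _ h1 h2 => rw [dotProduct_add, h1, h2, add_zero]
      | smul a y _ h1 => rw [dotProduct_smul, h1, smul_zero]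
    | zero => intro y _; simp
    | add x z _ _ h1 h2 => intro y hy; rw [add_dotProduct, h1 y hy, h2 y hy, add_zero]
    | smul a x _ h1 => intro y hy; rw [smul_dotProduct, h1 y hy, smul_zero]
  let e : (ι → ℝ) ≃ₗ[ℝ] EuclideanSpace ℝ ι := (WithLp.linearEquiv 2 ℝ (ι → ℝ)).symm
  have h1 : Module.finrank ℝ (W.map (e : (ι → ℝ) →ₗ[ℝ] EuclideanSpace ℝ ι)) =
      Module.finrank ℝ W := LinearEquiv.finrank_map_eq e W
  have h2 : Module.finrank ℝ (W'.map (e : (ι → ℝ) →ₗ[ℝ] EuclideanSpace ℝ ι)) =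
      Module.finrank ℝ W' := LinearEquiv.finrank_map_eq e W'
  have h3 : W'.map (e : (ι → ℝ) →ₗ[ℝ] EuclideanSpace ℝ ι) ≤
      (W.map (e : (ι → ℝ) →ₗ[ℝ] EuclideanSpace ℝ ι))ᗮ := by
    rintro _ ⟨y, hy, rfl⟩
    rw [Submodule.mem_orthogonal]
    rintro _ ⟨x, hx, rfl⟩
    have h4 := key x hx y hy
    rw [PiLp.inner_apply]
    simp only [dotProduct] at h4
    rw [← h4]
    refine Finset.sum_congr rfl fun i _ => ?_
    show inner ℝ (x i) (y i) = x i * y i
    rw [real_inner_eq_re_inner]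
    simp [mul_comm]
  have h4 := Submodule.finrank_mono h3
  have h5 := Submodule.finrank_add_finrank_orthogonal
    (W.map (e : (ι → ℝ) →ₗ[ℝ] EuclideanSpace ℝ ι))
  rw [finrank_euclideanSpace] at h5
  omega

end Pool.Agent.H3.CG
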